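import Pool.Agent.H140.FJ.Fermat

/-!
# Factorials and binomial coefficients modulo a Fermat prime

The two definitions used in the statement (`Pool.Agent.H140.FJ.P`, `Pool.Agent.H140.FJ.M`) are in
`Pool.Agent.H140.FJ.Fermat`; `P m j a b` is the product, over the odd classes `t` modulo `2^j` for
which the least non-negative residues of `t a` and `t b` have sum smaller than `2^j`, of
`1 - 2^(2^(m+1-j) (1 + s))`, `s` the inverse of `t` in `[1, 2^j)`; `M m j = (F_m - 1)/2^j`.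

Idea.  If `p = F_m` is prime, `n = 2^j` divides `2^(m+1)` and `G = 2^(2^(m+1-j))`, then the prime
ideals of `ℤ[ζ]` above `p` are generated by the elements `1 - G ζ^(-1/t)`.  The Jacobi sum of the
characters `χ^a`, `χ^b` of order dividing `n` is divisible by those with `⟨ta⟩ + ⟨tb⟩ < n`, and by
comparison of absolute values it is their product times a root of unity (Kronecker).  For `b = n/2`
the root of unity is found to be `-1` by a congruence modulo `2 (1 - ζ)`.  Reduction modulo the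
conjugate prime turns the Jacobi sums into binomial coefficients.
-/

set_option autoImplicit false

namespace Pool.Agent.Results.MP_37e5fa_nt.FactorialCriteria

open Pool.Agent.H140.FJ Finset Nat

theorem P_two (m : ℕ) (hm : 3 ≤ m) : P m 2 1 1 = 2 := by
  have h4 : (univ.filter (fun t : (ZMod (2 ^ 2))ˣ =>
      ((t : ZMod (2 ^ 2)) * ((1 : ℕ) : ZMod (2 ^ 2))).val +
        ((t : ZMod (2 ^ 2)) * ((1 : ℕ) : ZMod (2 ^ 2))).val < 2 ^ 2)) = {1} := by
    decide
  rw [P, h4, Finset.prod_singleton]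
  have h1 : ((((1 : (ZMod (2 ^ 2))ˣ)⁻¹ : (ZMod (2 ^ 2))ˣ) : ZMod (2 ^ 2))).val = 1 := by decide
  rw [h1, show m + 1 - 2 = m - 1 by omega, show (2 : ℕ) ^ (m - 1) * (1 + 1) = 2 ^ m by
    rw [show 1 + 1 = 2 from rfl, ← pow_succ, Nat.sub_add_cancel (by omega)], two_pow_half]
  norm_num

theorem P_three (m : ℕ) (hm : 3 ≤ m) : P m 3 1 1 = 2 * (1 - 2 ^ (2 ^ (m - 1))) := by
  have h8 : (univ.filter (fun t : (ZMod (2 ^ 3))ˣ =>
      ((t : ZMod (2 ^ 3)) * ((1 : ℕ) : ZMod (2 ^ 3))).val +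
        ((t : ZMod (2 ^ 3)) * ((1 : ℕ) : ZMod (2 ^ 3))).val < 2 ^ 3))
      = {1, ⟨3, 3, by decide, by decide⟩} := by
    decide
  rw [P, h8, Finset.prod_insert (by decide), Finset.prod_singleton]
  have h1 : ((((1 : (ZMod (2 ^ 3))ˣ)⁻¹ : (ZMod (2 ^ 3))ˣ) : ZMod (2 ^ 3))).val = 1 := by decide
  have h3 : (((((⟨3, 3, by decide, by decide⟩ : (ZMod (2 ^ 3))ˣ))⁻¹ : (ZMod (2 ^ 3))ˣ) :
      ZMod (2 ^ 3))).val = 3 := by decide
  rw [h1, h3, show m + 1 - 3 = m - 2 by omega, show (2 : ℕ) ^ (m - 2) * (1 + 1) = 2 ^ (m - 1) by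
    rw [show 1 + 1 = 2 from rfl, ← pow_succ]; congr 1; omega,
    show (2 : ℕ) ^ (m - 2) * (1 + 3) = 2 ^ m by
      rw [show 1 + 3 = 2 ^ 2 from rfl, ← pow_add]; congr 1; omega, two_pow_half]
  ring

theorem isUnit_two (m : ℕ) : IsUnit (2 : ZMod (Nat.fermatNumber m)) :=
  IsUnit.of_pow_eq_one (two_pow_full m) (by positivity)

/-- the value at level `8` -/
theorem eighth {m : ℕ} (hm : 3 ≤ m) (hF : (Nat.fermatNumber m).Prime) :
    ∃ c, ((((Nat.fermatNumber m - 1) / 8)! : ℕ) : ZMod (Nat.fermatNumber m)) = 2 ^ c := by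
  have : Fact (Nat.fermatNumber m).Prime := ⟨hF⟩
  have h1 := fact_eval hm (show 1 ≤ 3 by norm_num) (show 3 ≤ m + 1 by omega)
  have hM : M m 3 = (Nat.fermatNumber m - 1) / 8 := rfl
  rw [Finset.prod_Icc_succ_top (show 2 ≤ 2 + 1 by norm_num), Finset.Icc_self,
    Finset.prod_singleton, P_two m hm, show 2 + 1 = 3 from rfl, P_three m hm, hM] at h1
  set f : ZMod (Nat.fermatNumber m) := ((((Nat.fermatNumber m - 1) / 8)! : ℕ) :
    ZMod (Nat.fermatNumber m)) with hf
  set i : ZMod (Nat.fermatNumber m) := 2 ^ (2 ^ (m - 1)) with hi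
  have hi2 : i ^ 2 = -1 := by
    rw [hi, ← pow_mul, ← pow_succ, Nat.sub_add_cancel (by omega), two_pow_half]
  have h2 : (2 * f) ^ 8 = 1 := by
    have e : (1 - i) ^ 4 = -4 := by linear_combination (i ^ 2 - 4 * i + 5) * hi2
    have e2 : f ^ (2 ^ 3) * (2 ^ (2 ^ (2 - 1)) * (2 * (1 - i)) ^ (2 ^ (3 - 1)))
        = 64 * f ^ 8 * (1 - i) ^ 4 := by norm_num; ring
    rw [e2, e] at h1
    linear_combination -h1
  have D := dat (m := m) (k := 2) (by norm_num) (by omega) hF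
  have hpr := g_prim D
  obtain ⟨c, -, hc⟩ := hpr.eq_pow_of_pow_eq_one (ξ := 2 * f) (by exact_mod_cast h2)
  have hu := isUnit_two m
  refine ⟨(2 ^ (m + 1) - 1) + 2 ^ (m - 2) * c, ?_⟩
  apply hu.mul_left_cancel
  have e3 : (2 : ZMod (Nat.fermatNumber m)) * 2 ^ (2 ^ (m + 1) - 1) = 1 := by
    rw [← _root_.pow_succ', Nat.sub_add_cancel Nat.one_le_two_pow, two_pow_full]
  rw [← hc, _root_.pow_add, ← mul_assoc, e3, one_mul, _root_.pow_mul]
  push_cast
  rfl

/-- **Factorial criteria for Fermat primes.**  Let `m ≥ 3`, `F = F_m`, and for `2 ≤ j ≤ m + 1` let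
`M = (F - 1)/2^j`.
(1) If `F` is prime, then modulo `F` the binomial coefficients `(2M choose M)` and
`((F-1)/2 choose M)` are equal to `P m j 1 1`, and for all `a, b ≥ 1` with `a + b < 2^j` the
binomial coefficient `((a+b)M choose aM)` is a power of `2` times `P m j a b`.
(2) For every `j` in this range, `F` is prime if and only if
`(M!)^(2^j) ∏_(2 ≤ i ≤ j) P m i 1 1 ^ (2^(i-1)) = -1` modulo `F`.
(3) `F` is prime if and only if `((F-1)/8)!` is a power of `2` modulo `F`. -/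
theorem result (m : ℕ) (hm : 3 ≤ m) :
    ((Nat.fermatNumber m).Prime → ∀ j, 2 ≤ j → j ≤ m + 1 →
      ((2 * M m j).choose (M m j) : ZMod (Nat.fermatNumber m)) = P m j 1 1 ∧
      (((Nat.fermatNumber m - 1) / 2).choose (M m j) : ZMod (Nat.fermatNumber m)) = P m j 1 1 ∧
      ∀ a b, 1 ≤ a → 1 ≤ b → a + b < 2 ^ j →
        ∃ c, (((a + b) * M m j).choose (a * M m j) : ZMod (Nat.fermatNumber m))
          = 2 ^ c * P m j a b) ∧
    (∀ j, 2 ≤ j → j ≤ m + 1 → ((Nat.fermatNumber m).Prime ↔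
      (((M m j)! : ℕ) : ZMod (Nat.fermatNumber m)) ^ (2 ^ j) *
        ∏ i ∈ Finset.Icc 2 j, P m i 1 1 ^ (2 ^ (i - 1)) = -1)) ∧
    ((Nat.fermatNumber m).Prime ↔
      ∃ c, ((((Nat.fermatNumber m - 1) / 8)! : ℕ) : ZMod (Nat.fermatNumber m)) = 2 ^ c) := by
  refine ⟨?_, ?_, ?_⟩
  · intro hF j hj hjm
    have : Fact (Nat.fermatNumber m).Prime := ⟨hF⟩
    exact ⟨central_eval hm hj hjm, half_eval hm hj hjm,
      fun a b ha hb hab => binom_eval hm hj hjm ha hb hab⟩
  · intro j hj hjm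
    constructor
    · intro hF
      have : Fact (Nat.fermatNumber m).Prime := ⟨hF⟩
      exact fact_eval hm (by omega) hjm
    · intro h
      apply prime_of_unit hm hjm
      have h1 : IsUnit ((((M m j)! : ℕ) : ZMod (Nat.fermatNumber m)) ^ (2 ^ j) *
        ∏ i ∈ Finset.Icc 2 j, P m i 1 1 ^ (2 ^ (i - 1))) := by
        rw [h]; exact isUnit_one.neg
      exact (isUnit_pow_iff (by positivity)).mp (isUnit_of_mul_isUnit_left h1)
  · constructor
    · exact eighth hm
    · rintro ⟨c, hc⟩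
      apply prime_of_unit hm (show 3 ≤ m + 1 by omega)
      have hM : M m 3 = (Nat.fermatNumber m - 1) / 8 := rfl
      rw [hM, hc]
      exact (isUnit_two m).pow c

end Pool.Agent.Results.MP_37e5fa_nt.FactorialCriteria
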