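import Pool.Agent.Q149.FBE

/-!
# Pépin's test in the bases `F_j` and the index of `2^a - 1`, `a` even

For `m ≥ 4` and every `a = 2^j s`, `s` odd, `j ≤ m`, the `2^(m+1)`-th power residue class of
`2^a - 1` modulo a Fermat prime `F_m` is given by an explicit `2`-adic series (the case `j = 0` was
known before).  Hence Pépin's test in all the bases `2^a ± 1` for which the exact power `2^j` of `2`
in `a` satisfies `2 ≤ 2^j ≤ m + 2`: `F_m` is prime if and only if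
`(2^a ± 1)^((F_m - 1) / 2^(2^j - 1)) ≡ -1`.  If `2^j ≥ m + 3` then `2^a ± 1` is a `2^(m+1)`-th power
residue modulo a Fermat prime `F_m`.  Hence every Fermat prime `F_m` with `m ≥ 5` divides
the Pell number of index `(F_m - 1) / 2^(m+1)`, while none of `F_0, ..., F_4` does.
-/

namespace Pool.Agent.Results.MP_37e5fa_nt.FermatBases

open Finset

/-- The sign: `+1` if the least residue of `l / s` modulo `2 M` is less than `M`, and `-1`
otherwise. -/
def sgn (M s l : ℕ) : ℤ :=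
  if ((l : ZMod (2 * M)) * (s : ZMod (2 * M))⁻¹).val < M then 1 else -1

/-- The constant in the index formula. -/
def kap (m j s : ℕ) : ℤ :=
  if j = 1 then 2 ^ (m + 1) * (2 + sgn (2 ^ (m - 1)) s 1 - sgn (2 ^ m) s 1)
  else if j = 2 then 2 ^ (m + 1) else 0

/-- `4 E ≡ s ∑_{l=1}^{M} ± x^l / l + κ` modulo `2^(m+3)`, in the ring of rational numbers with odd
denominator; here `M = 2^(m-j)` and `x = 2^(2^j)`, so that `F_m = x^M + 1`. -/
def Ind (m j s E : ℕ) : Prop :=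
  ∃ d n : ℤ, Odd d ∧ (d : ℚ) * (4 * E - (s * ∑ l ∈ Icc 1 (2 ^ (m - j)),
    (sgn (2 ^ (m - j)) s l : ℚ) * (2 ^ (2 ^ j)) ^ l / l + kap m j s)) = 2 ^ (m + 3) * n

/-- The Pell numbers `0, 1, 2, 5, 12, 29, ...`. -/
def pell : ℕ → ℕ
  | 0 => 0
  | 1 => 1
  | n + 2 => 2 * pell (n + 1) + pell n

lemma pell_eq (n : ℕ) : pell n = Pool.Agent.Q149.FB.pell n ∧
    pell (n + 1) = Pool.Agent.Q149.FB.pell (n + 1) := by
  induction n with
  | zero => exact ⟨rfl, rfl⟩
  | succ n ih =>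
    refine ⟨ih.2, ?_⟩
    show 2 * pell (n + 1) + pell n = 2 * Pool.Agent.Q149.FB.pell (n + 1) +
      Pool.Agent.Q149.FB.pell n
    rw [ih.1, ih.2]

lemma sgn_eq {m k s c l : ℕ} (hk : k ≤ m) (hc : s * c % 2 ^ (m + 1) = 1) :
    sgn (2 ^ k) s l = Pool.Agent.Q149.FB.sg (2 ^ k) (l * c) := by
  unfold sgn Pool.Agent.Q149.FB.sg
  have hd : 2 * 2 ^ k ∣ 2 ^ (m + 1) := by
    rw [← pow_succ']
    exact pow_dvd_pow 2 (by omega)
  have h1 : ((s : ℕ) : ZMod (2 * 2 ^ k)) * ((c : ℕ) : ZMod (2 * 2 ^ k)) = 1 := by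
    rw [← Nat.cast_mul]
    have : ((s * c : ℕ) : ZMod (2 * 2 ^ k)) = ((1 : ℕ) : ZMod (2 * 2 ^ k)) := by
      rw [ZMod.natCast_eq_natCast_iff]
      have h2 : s * c ≡ 1 [MOD 2 ^ (m + 1)] := by
        unfold Nat.ModEq
        rw [hc, Nat.mod_eq_of_lt (Nat.one_lt_two_pow (by omega))]
      exact h2.of_dvd hd
    simpa using this
  have h2 : ((s : ZMod (2 * 2 ^ k)))⁻¹ = ((c : ℕ) : ZMod (2 * 2 ^ k)) :=
    ZMod.inv_eq_of_mul_eq_one _ _ _ h1
  rw [h2, ← Nat.cast_mul, ZMod.val_natCast]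

lemma ind_iff {m j s c E : ℕ} (hm : 4 ≤ m) (hc : s * c % 2 ^ (m + 1) = 1) :
    Ind m j s E ↔ Pool.Agent.Q149.FB.Cg (m + 3) (4 * E)
      (s * Pool.Agent.Q149.FB.BB (2 ^ (m - j)) (2 ^ (2 ^ j)) c +
        Pool.Agent.Q149.FB.kap m j c) := by
  have h1 : ∑ l ∈ Icc 1 (2 ^ (m - j)), (sgn (2 ^ (m - j)) s l : ℚ) * (2 ^ (2 ^ j)) ^ l / l =
      Pool.Agent.Q149.FB.BB (2 ^ (m - j)) (2 ^ (2 ^ j)) c := by
    unfold Pool.Agent.Q149.FB.BB
    refine sum_congr rfl fun l _ => ?_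
    rw [sgn_eq (m := m) (by omega) hc, mul_div_assoc]
    push_cast
    rfl
  have h2 : kap m j s = Pool.Agent.Q149.FB.kap m j c := by
    unfold kap Pool.Agent.Q149.FB.kap Pool.Agent.Q149.FB.k1
    rw [sgn_eq (m := m) (by omega) hc, sgn_eq (m := m) le_rfl hc, one_mul]
    split_ifs <;> first | rfl | omega
  unfold Ind Pool.Agent.Q149.FB.Cg
  rw [h1, h2]

lemma quot {m k : ℕ} (hk : k ≤ 2 ^ m) : (Nat.fermatNumber m - 1) / 2 ^ k = 2 ^ (2 ^ m - k) := by
  unfold Nat.fermatNumber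
  rw [Nat.add_sub_cancel, Nat.pow_div hk (by norm_num)]

theorem result :
    (∀ m : ℕ, 4 ≤ m →
      -- the index of `2^a - 1`, `a = 2^j s`, and the converse
      (∀ j s : ℕ, j ≤ m → Odd s →
        (∃ E : ℕ, Ind m j s E) ∧ ∀ E : ℕ, Ind m j s E →
          ((Nat.fermatNumber m).Prime →
            ((2 ^ (2 ^ j * s) - 1 : ℕ) : ZMod (Nat.fermatNumber m)) ^
              ((Nat.fermatNumber m - 1) / 2 ^ (m + 1)) = 2 ^ E) ∧
          (¬ 2 ^ (m + 1) ∣ E →
            ((2 ^ (2 ^ j * s) - 1 : ℕ) : ZMod (Nat.fermatNumber m)) ^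
              ((Nat.fermatNumber m - 1) / 2 ^ (m + 1)) = 2 ^ E → (Nat.fermatNumber m).Prime)) ∧
      -- Pépin's test in the bases `2^a - 1` and `2^a + 1`
      (∀ j s : ℕ, 1 ≤ j → 2 ^ j ≤ m + 2 → Odd s →
        ((Nat.fermatNumber m).Prime ↔
          ((2 ^ (2 ^ j * s) - 1 : ℕ) : ZMod (Nat.fermatNumber m)) ^
            ((Nat.fermatNumber m - 1) / 2 ^ (2 ^ j - 1)) = -1) ∧
        ((Nat.fermatNumber m).Prime ↔
          ((2 ^ (2 ^ j * s) + 1 : ℕ) : ZMod (Nat.fermatNumber m)) ^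
            ((Nat.fermatNumber m - 1) / 2 ^ (2 ^ j - 1)) = -1)) ∧
      -- in particular in the base `F_j`
      (∀ j : ℕ, 1 ≤ j → 2 ^ j ≤ m + 2 →
        ((Nat.fermatNumber m).Prime ↔
          (Nat.fermatNumber j : ZMod (Nat.fermatNumber m)) ^
            ((Nat.fermatNumber m - 1) / 2 ^ (2 ^ j - 1)) = -1)) ∧
      -- power residues
      (∀ j s : ℕ, m + 3 ≤ 2 ^ j → Odd s → (Nat.fermatNumber m).Prime →
        (j ≤ m → ((2 ^ (2 ^ j * s) - 1 : ℕ) : ZMod (Nat.fermatNumber m)) ^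
          ((Nat.fermatNumber m - 1) / 2 ^ (m + 1)) = 1) ∧
        (j < m → ((2 ^ (2 ^ j * s) + 1 : ℕ) : ZMod (Nat.fermatNumber m)) ^
          ((Nat.fermatNumber m - 1) / 2 ^ (m + 1)) = 1))) ∧
    -- the Pell numbers
    (∀ m : ℕ, (Nat.fermatNumber m).Prime →
      (Nat.fermatNumber m ∣ pell ((Nat.fermatNumber m - 1) / 2 ^ (m + 1)) ↔ 5 ≤ m)) := by
  refine ⟨fun m hm => ?_, fun m hF => ?_⟩
  · have hb := Pool.Agent.Q149.FB.big hm
    have hq : (Nat.fermatNumber m - 1) / 2 ^ (m + 1) = 2 ^ (2 ^ m - (m + 1)) := quot (by omega)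
    have hcast : ∀ a : ℕ, ((2 ^ a - 1 : ℕ) : ZMod (Nat.fermatNumber m)) = 2 ^ a - 1 := by
      intro a
      rw [Nat.cast_sub Nat.one_le_two_pow]
      push_cast
      ring
    have hcast' : ∀ a : ℕ, ((2 ^ a + 1 : ℕ) : ZMod (Nat.fermatNumber m)) = 2 ^ a + 1 := by
      intro a
      push_cast
      ring
    have hq2 : ∀ j : ℕ, 1 ≤ j → 2 ^ j ≤ m + 2 →
        (Nat.fermatNumber m - 1) / 2 ^ (2 ^ j - 1) = 2 ^ (2 ^ m - 2 ^ j + 1) := by
      intro j hj h
      have := Pool.Agent.Q149.FB.two_le hj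
      rw [quot (by omega)]
      congr 1
      omega
    refine ⟨fun j s hj hs => ?_, fun j s hj h hs => ?_, fun j hj h => ?_, fun j s h hs hF => ?_⟩
    · obtain ⟨c, hc⟩ := Pool.Agent.Q149.FB.exists_inv (m := m) hs
      refine ⟨?_, fun E hE => ?_⟩
      · obtain ⟨E, hE, _⟩ := Pool.Agent.Q149.FB.claim_all hm hj s c hs hc
        exact ⟨E, (ind_iff hm hc).mpr hE⟩
      · rw [hq, hcast]
        refine ⟨fun hF => Pool.Agent.Q149.FB.index_all hm hj hs hc ((ind_iff hm hc).mp hE) hF,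
          fun hd h => Pool.Agent.Y875.FP.mersenne_conv hm hd h⟩
    · rw [hq2 j hj h]
      exact ⟨Pool.Agent.Q149.FB.pepin_sub hm hj h hs, Pool.Agent.Q149.FB.pepin_add hm hj h hs⟩
    · rw [hq2 j hj h]
      have h1 := Pool.Agent.Q149.FB.pepin_add (j := j) hm hj h odd_one
      rw [mul_one] at h1
      exact h1
    · rw [hq, hcast, hcast']
      exact ⟨fun hj => Pool.Agent.Q149.FB.residue hm hj h hs hF,
        fun hj => Pool.Agent.Q149.FB.residue_add hm hj h hs hF⟩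
  · constructor
    · intro h
      by_contra hlt
      have hm : m = 0 ∨ m = 1 ∨ m = 2 ∨ m = 3 ∨ m = 4 := by omega
      rcases hm with rfl | rfl | rfl | rfl | rfl
      · revert h
        simp [Nat.fermatNumber, pell]
      · revert h
        simp [Nat.fermatNumber, pell]
      · revert h
        simp [Nat.fermatNumber, pell]
      · revert h
        simp [Nat.fermatNumber, pell]
      · rw [(pell_eq _).1] at h
        apply Pool.Agent.Q149.FB.not_dvd_four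
        have e1 : Nat.fermatNumber 4 = 65537 := by simp [Nat.fermatNumber]
        have e2 : (Nat.fermatNumber 4 - 1) / 2 ^ (4 + 1) = 2 ^ 11 := by
          rw [e1]
          norm_num
        rw [e2, e1] at h
        exact h
    · intro hm
      rw [quot (by have := Pool.Agent.Q149.FB.big (show 4 ≤ m by omega); omega), (pell_eq _).1]
      exact Pool.Agent.Q149.FB.dvd_pell hm hF

end Pool.Agent.Results.MP_37e5fa_nt.FermatBases
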