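import Pool.Agent.Q138.FM.Top

/-!
# Generalised Fermat numbers with a real base: the Hardy-Wright heuristic as an exact law

For real `a > 1` let `N m a = ⌊a ^ (2 ^ m) + 1⌋` and let `W m a` be the product (with multiplicity) of
the prime factors of `N m a` which are larger than `2 ^ (m + 1)`.  The generalised Fermat numbers
`b ^ (2 ^ m) + 1`, `b` even, have no other prime factors: `W m b = N m b = b ^ (2 ^ m) + 1`, and
`W m 2` is the Fermat number `F_m`.

* For almost every real `a > 1` only finitely many of the numbers `W m a` are prime.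
* Exact law: as `m → ∞` the measure of the `u` in `(s, t]` such that `W m (exp u)` is prime is
  asymptotic to `e ^ γ log 2 log (t / s) (m + 1) / 2 ^ m` (`m + 1` comes from the absence of small
  prime factors), the measure of the `u` such that `W m (exp u)` is prime for at least one `m ≥ M` is
  asymptotic to `2 e ^ γ log 2 log (t / s) (M + 1) / 2 ^ M`, and it is at most
  `C ((M + 1) / 2 ^ M) ^ 2` for two different `m ≥ M`.
* The exceptional bases, for which infinitely many `W m a` are prime, are generic in the sense of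
  category, and of full Hausdorff dimension: there is `k` such that the set of the `a` in any interval
  for which all the numbers `N (k n) a = ⌊a ^ (2 ^ (k n))⌋ + 1`, `n` large, are prime has dimension `1`.
-/

set_option autoImplicit false

open Filter Topology MeasureTheory

namespace Pool.Agent.Results.MP_37e5fa_nt.RealBases

/-- The product, with multiplicity, of the prime factors of `n` that are larger than `k`. -/
def roughPart (k n : ℕ) : ℕ := (n.primeFactorsList.filter (fun r => k < r)).prod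

/-- The integer part of `a ^ (2 ^ m) + 1`. -/
noncomputable def N (m : ℕ) (a : ℝ) : ℕ := ⌊a ^ (2 ^ m) + 1⌋₊

/-- The product of the prime factors of `N m a` that are larger than `2 ^ (m + 1)`. -/
noncomputable def W (m : ℕ) (a : ℝ) : ℕ := roughPart (2 ^ (m + 1)) (N m a)

lemma even_base (m b : ℕ) (hb : Even b) (h0 : 0 < b) :
    N m b = b ^ (2 ^ m) + 1 ∧ W m b = b ^ (2 ^ m) + 1 := by
  have h1 : N m b = b ^ (2 ^ m) + 1 := by
    unfold N
    have : ((b : ℝ) ^ (2 ^ m) + 1) = ((b ^ (2 ^ m) + 1 : ℕ) : ℝ) := by push_cast; ring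
    rw [this, Nat.floor_natCast]
  refine ⟨h1, ?_⟩
  unfold W
  rw [h1]
  unfold roughPart
  have hodd : Odd (b ^ (2 ^ m) + 1) := (hb.pow_of_ne_zero (by positivity)).add_one
  have h2 : ∀ r ∈ (b ^ (2 ^ m) + 1).primeFactorsList, 2 ^ (m + 1) < r := by
    intro r hr
    have hr1 := Nat.prime_of_mem_primeFactorsList hr
    have hr2 := Nat.dvd_of_mem_primeFactorsList hr
    have hr3 : r ≠ 2 := by
      rintro rfl
      exact (Nat.not_even_iff_odd.2 hodd) (even_iff_two_dvd.2 hr2)
    obtain ⟨k, hk⟩ := Nat.pow_pow_add_primeFactors_one_lt hr1 hr3 hr2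
    have hk0 : k ≠ 0 := by
      rintro rfl
      rw [zero_mul, zero_add] at hk
      exact hr1.one_lt.ne' hk
    have : 1 * 2 ^ (m + 1) ≤ k * 2 ^ (m + 1) := Nat.mul_le_mul_right _ (Nat.pos_of_ne_zero hk0)
    omega
  rw [List.filter_eq_self.2 (fun r hr => by simpa using h2 r hr)]
  exact Nat.prod_primeFactorsList (by positivity)

/-- See the text above. -/
theorem result :
    (∀ m b : ℕ, Even b → 0 < b → N m b = b ^ (2 ^ m) + 1 ∧ W m b = b ^ (2 ^ m) + 1) ∧
    (∀ m : ℕ, W m 2 = Nat.fermatNumber m) ∧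
    (∀ᵐ a : ℝ, 1 < a → {m : ℕ | (W m a).Prime}.Finite) ∧
    (∀ s t : ℝ, 0 < s → s ≤ t →
      Tendsto (fun m : ℕ => volume.real {u : ℝ | u ∈ Set.Ioc s t ∧ (W m (Real.exp u)).Prime} /
        ((m + 1) / 2 ^ m)) atTop
        (𝓝 (Real.exp Real.eulerMascheroniConstant * Real.log 2 * (Real.log t - Real.log s))) ∧
      Tendsto (fun M : ℕ => volume.real {u : ℝ | u ∈ Set.Ioc s t ∧ ∃ m : ℕ, M ≤ m ∧
        (W m (Real.exp u)).Prime} / ((M + 1) / 2 ^ M)) atTop
        (𝓝 (2 * (Real.exp Real.eulerMascheroniConstant * Real.log 2 *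
          (Real.log t - Real.log s)))) ∧
      ∃ C : ℝ, 0 < C ∧ ∀ M : ℕ, volume.real {u : ℝ | u ∈ Set.Ioc s t ∧ ∃ m m' : ℕ, M ≤ m ∧ m < m' ∧
        (W m (Real.exp u)).Prime ∧ (W m' (Real.exp u)).Prime} ≤ C * ((M + 1) / 2 ^ M) ^ 2) ∧
    {a : ℝ | 1 < a → ∃ᶠ m in atTop, (N m a).Prime ∧ W m a = N m a} ∈ residual ℝ ∧
    (∃ k : ℕ, 1 ≤ k ∧ ∀ u v : ℝ, 1 < u → u < v →
      dimH {a : ℝ | u < a ∧ a < v ∧ ∀ᶠ n in atTop, (N (k * n) a).Prime ∧
        W (k * n) a = N (k * n) a} = 1) := by
  have hA : ∀ (m : ℕ) (τ : ℝ), (W m (Real.exp τ)).Prime ↔ τ ∈ Pool.Agent.Q138.FM.A m := fun m τ =>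
    (Pool.Agent.Q138.FM.mem_A m τ).symm
  have hW : ∀ a : ℝ, 1 < a → ∀ᶠ m : ℕ in atTop, (N m a).Prime → W m a = N m a := by
    intro a ha
    filter_upwards [Pool.Agent.Q138.FM.NB_large ha] with m hm hp
    exact Pool.Agent.Q138.FM.rough_of_prime hp hm
  refine ⟨even_base, fun m => ?_, Pool.Agent.Q138.FM.ae_base, fun s t hs hst => ⟨?_, ?_, ?_⟩, ?_, ?_⟩
  · have := (even_base m 2 even_two two_pos).2
    unfold Nat.fermatNumber
    simpa using this
  · have h := Pool.Agent.Q138.FM.mean hs hst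
    refine h.congr fun m => ?_
    rw [Pool.Agent.Q138.FM.mu_eq]
    unfold Pool.Agent.Q138.FM.wt
    congr 2
    ext u
    simp only [Set.mem_inter_iff, Set.mem_ofPred_eq, hA]
    tauto
  · have h := Pool.Agent.Q138.FM.tail_law hs hst
    refine h.congr fun M => ?_
    rw [Pool.Agent.Q138.FM.U_eq]
    unfold Pool.Agent.Q138.FM.wt
    congr 2
    ext u
    simp only [Set.mem_inter_iff, Set.mem_ofPred_eq, hA]
    tauto
  · obtain ⟨C, hC, h⟩ := Pool.Agent.Q138.FM.two_law hs hst
    refine ⟨C, hC, fun M => ?_⟩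
    refine le_trans (le_of_eq ?_) (h M)
    congr 1
    ext u
    simp only [Set.mem_inter_iff, Set.mem_ofPred_eq, hA]
    exact and_comm
  · refine Filter.mem_of_superset Pool.Agent.Q138.FM.comeager ?_
    intro a ha h1
    have h2 : ∃ᶠ m in atTop, (N m a).Prime := ha h1
    exact (h2.and_eventually (hW a h1)).mono fun m hm => ⟨hm.1, hm.2 hm.1⟩
  · obtain ⟨k, hk, h⟩ := Pool.Agent.Q138.FM.dim_one
    refine ⟨k, hk, fun u v hu huv => ?_⟩
    rw [← h u v hu huv]
    congr 1
    ext a
    simp only [Set.mem_ofPred_eq]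
    refine and_congr_right fun h1 => and_congr_right fun h2 => ?_
    have h3 : Tendsto (fun n : ℕ => k * n) atTop atTop := tendsto_id.const_mul_atTop' (by omega)
    have h4 := h3.eventually (hW a (by linarith))
    constructor
    · intro h5
      exact h5.mono fun n hn => hn.1
    · intro h5
      filter_upwards [h4, h5] with n h6 h7
      exact ⟨h7, h6 h7⟩

end Pool.Agent.Results.MP_37e5fa_nt.RealBases
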