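import Pool.Agent.Q217.SF.Factor

/-!
# Fermat numbers behave like primes for sparse integers

Let `m ≥ 2` and let `F_m = 2 ^ (2 ^ m) + 1`.  We consider integers `a` written as sums
`∑_{i < k} c_i 2 ^ α_i` with integers `c_i` (digits, or windows of digits) and natural numbers
`α_i`.

(1) Let `a_1 ⋯ a_r = q F_m` with `r ≥ 2`, and let `K` be the total number of terms in such
representations of `a_1, …, a_r, q`.  If `(K + 1) (2 r) ^ (K / 2) h < 2 ^ m`, where `h` is the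
integral part of the binary logarithm of the product of the sums of the `|c|` over the terms of
`a_1, …, a_r` plus twice the corresponding sum for `q`, then `F_m` divides one of the `a_t`.

(2) In particular let `a`, `b`, `q` be sums of `k_1`, `k_2`, `l` terms `± 2 ^ i`, with
`k_1 + k_2 + l ≤ m - 2 log_2 m`, and let `F_m ∣ a b` with quotient `q`.  Then `F_m ∣ a` or
`F_m ∣ b`.

(3) Hence if `F_m = a b` with `a, b > 1`, then the numbers of non-zero digits of `a` and `b` in any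
signed binary representations have a sum `> m - 2 log_2 m - 1`.
-/

set_option autoImplicit false

namespace Pool.Agent.Results.MP_37e5fa_nt.SparseEuclid

open Finset Polynomial Q217.SF

/-- `n` is a sum of `k` terms of the form `± 2 ^ i`. -/
def Sparse (k : ℕ) (n : ℤ) : Prop :=
  ∃ (ε : Fin k → ℤ) (α : Fin k → ℕ), (∀ i, ε i = 1 ∨ ε i = -1) ∧ n = ∑ i, ε i * 2 ^ α i

theorem part1 (m r l : ℕ) (hm : 2 ≤ m) (hr : 2 ≤ r) (k : Fin r → ℕ)
    (c : ∀ t, Fin (k t) → ℤ) (α : ∀ t, Fin (k t) → ℕ) (d : Fin l → ℤ) (β : Fin l → ℕ)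
    (hprod : ∏ t, ∑ i, c t i * 2 ^ α t i = (∑ j, d j * 2 ^ β j) * (Nat.fermatNumber m : ℤ))
    (hK : ((∑ t, k t + l + 1 : ℕ) : ℝ) * Real.sqrt (2 * r) ^ (∑ t, k t + l) *
      Nat.log 2 (∏ t, ∑ i, (c t i).natAbs + 2 * ∑ j, (d j).natAbs) < 2 ^ m) :
    ∃ t, (Nat.fermatNumber m : ℤ) ∣ ∑ i, c t i * 2 ^ α t i := by
  have hF : (Nat.fermatNumber m : ℤ) = 1 * 2 ^ (2 ^ m) + 1 := by
    simp [Nat.fermatNumber]
  rw [hF] at hprod
  have hh : ∏ t, ∑ i, |c t i| + (∑ j, |d j|) * (|(1 : ℤ)| + |1|) <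
      ((2 : ℕ) : ℤ) ^ (Nat.log 2 (∏ t, ∑ i, (c t i).natAbs + 2 * ∑ j, (d j).natAbs) + 1) := by
    have h1 := Nat.lt_pow_succ_log_self (b := 2) (by norm_num)
      (∏ t, ∑ i, (c t i).natAbs + 2 * ∑ j, (d j).natAbs)
    have h2 : ∏ t, ∑ i, |c t i| + (∑ j, |d j|) * (|(1 : ℤ)| + |1|) =
        ((∏ t, ∑ i, (c t i).natAbs + 2 * ∑ j, (d j).natAbs : ℕ) : ℤ) := by
      push_cast
      simp only [abs_one]
      ring
    rw [h2]
    exact_mod_cast h1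
  obtain ⟨P, Pq, s, s', Y, hY1, -, hP, -, hid⟩ := deform (b := 2) le_rfl hr c α d β 1 1
    (2 ^ m) (Nat.log 2 (∏ t, ∑ i, (c t i).natAbs + 2 * ∑ j, (d j).natAbs))
    (by exact_mod_cast hprod) hh (by exact_mod_cast hK)
  have hpr := prime_fermat hm hY1
  have e1 : (C ((1 : ℤ) * ((2 : ℕ) : ℤ) ^ (2 ^ m)) * X ^ Y + C 1 : ℤ[X]) =
      C ((2 : ℤ) ^ (2 ^ m)) * X ^ Y + C 1 := by
    rw [one_mul]; rfl
  rw [e1] at hid
  obtain ⟨t, ht⟩ := dvd_of_prime hpr (by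
    rw [coeff_add, coeff_C_mul_X_pow, if_neg (by omega), coeff_C_zero, zero_add]
    norm_num) hid
  refine ⟨t, ?_⟩
  rw [hP t] at ht
  have e2 : (C ((2 : ℤ) ^ (2 ^ m)) * X ^ Y + C 1 : ℤ[X]).eval 1 = (Nat.fermatNumber m : ℤ) := by
    rw [hF]; simp
  rw [e2] at ht
  exact_mod_cast ht

theorem part2 (m k₁ k₂ l : ℕ) (hm : 2 ≤ m) (a b q : ℤ) (ha : Sparse k₁ a) (hb : Sparse k₂ b)
    (hq : Sparse l q) (hK : 2 ^ (k₁ + k₂ + l) * m ^ 2 ≤ 2 ^ m)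
    (h : a * b = q * (Nat.fermatNumber m : ℤ)) :
    (Nat.fermatNumber m : ℤ) ∣ a ∨ (Nat.fermatNumber m : ℤ) ∣ b := by
  obtain ⟨c₁, α₁, hc₁, rfl⟩ := ha
  obtain ⟨c₂, α₂, hc₂, rfl⟩ := hb
  obtain ⟨d, β, hd, rfl⟩ := hq
  let k : Fin 2 → ℕ := fun t => match t with
    | 0 => k₁
    | 1 => k₂
  let c : ∀ t, Fin (k t) → ℤ := fun t => match t with
    | 0 => c₁
    | 1 => c₂
  let α : ∀ t, Fin (k t) → ℕ := fun t => match t with
    | 0 => α₁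
    | 1 => α₂
  have hsum : ∑ t, k t = k₁ + k₂ := by rw [Fin.sum_univ_two]
  have hKm : k₁ + k₂ + l + 1 < m := by
    have h1 : 2 ^ (k₁ + k₂ + l) * 2 ^ 2 ≤ 2 ^ m := by
      refine le_trans (Nat.mul_le_mul_left _ ?_) hK
      exact Nat.pow_le_pow_left hm 2
    rw [← pow_add] at h1
    have := (Nat.pow_le_pow_iff_right (by norm_num : 1 < 2)).1 h1
    omega
  have habs : ∀ {n : ℕ} (e : Fin n → ℤ), (∀ i, e i = 1 ∨ e i = -1) →
      ∑ i, (e i).natAbs = n := by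
    intro n e he
    have : ∀ i, (e i).natAbs = 1 := by
      intro i
      rcases he i with h | h <;> rw [h] <;> rfl
    simp [this]
  have hW : ∏ t, ∑ i, (c t i).natAbs + 2 * ∑ j, (d j).natAbs = k₁ * k₂ + 2 * l := by
    rw [Fin.prod_univ_two, habs d hd]
    have e1 : ∑ i, (c 0 i).natAbs = k₁ := habs c₁ hc₁
    have e2 : ∑ i, (c 1 i).natAbs = k₂ := habs c₂ hc₂
    rw [e1, e2]
  have hlog : Nat.log 2 (k₁ * k₂ + 2 * l) < m := by
    apply Nat.log_lt_of_lt_pow'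
    · omega
    · have h1 : k₁ * k₂ + 2 * l < m ^ 2 := by nlinarith
      have h2 : m ^ 2 ≤ 2 ^ m :=
        le_trans (Nat.le_mul_of_pos_left _ (by positivity)) hK
      exact lt_of_lt_of_le h1 h2
  obtain ⟨t, ht⟩ := part1 m 2 l hm le_rfl k c α d β (by rw [Fin.prod_univ_two]; exact h) (by
    rw [hW, hsum]
    have h4 : Real.sqrt (2 * ((2 : ℕ) : ℝ)) = 2 := by
      rw [show (2 : ℝ) * ((2 : ℕ) : ℝ) = 2 ^ 2 by norm_num]
      exact Real.sqrt_sq (by norm_num)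
    rw [h4]
    have h5 : (k₁ + k₂ + l + 1) * 2 ^ (k₁ + k₂ + l) * Nat.log 2 (k₁ * k₂ + 2 * l) < 2 ^ m := by
      have h6 : (k₁ + k₂ + l + 1) * Nat.log 2 (k₁ * k₂ + 2 * l) < m ^ 2 := by nlinarith
      calc (k₁ + k₂ + l + 1) * 2 ^ (k₁ + k₂ + l) * Nat.log 2 (k₁ * k₂ + 2 * l)
          = 2 ^ (k₁ + k₂ + l) * ((k₁ + k₂ + l + 1) * Nat.log 2 (k₁ * k₂ + 2 * l)) := by ring
        _ < 2 ^ (k₁ + k₂ + l) * m ^ 2 := Nat.mul_lt_mul_of_pos_left h6 (by positivity)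
        _ ≤ 2 ^ m := hK
    exact_mod_cast h5)
  fin_cases t
  · left; exact ht
  · right; exact ht

theorem part3 (m k₁ k₂ a b : ℕ) (hm : 2 ≤ m) (ha : Sparse k₁ a) (hb : Sparse k₂ b)
    (ha1 : 1 < a) (hb1 : 1 < b) (h : a * b = Nat.fermatNumber m) :
    2 ^ m < 2 ^ (k₁ + k₂ + 1) * m ^ 2 := by
  by_contra hcon
  push Not at hcon
  have h1 : Sparse 1 1 := ⟨fun _ => 1, fun _ => 0, fun _ => Or.inl rfl, by simp⟩
  have hpos : ∀ x y : ℕ, 1 < x → 1 < y → x * y = Nat.fermatNumber m →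
      ¬ (Nat.fermatNumber m : ℤ) ∣ (x : ℤ) := by
    intro x y hx hy hxy hd
    have hd' : Nat.fermatNumber m ∣ x := by exact_mod_cast hd
    have := Nat.le_of_dvd (by omega) hd'
    rw [← hxy] at this
    nlinarith
  rcases part2 m k₁ k₂ 1 hm a b 1 ha hb h1 hcon (by rw [one_mul]; exact_mod_cast h) with h2 | h2
  · exact hpos a b ha1 hb1 h h2
  · exact hpos b a hb1 ha1 (by rw [mul_comm]; exact h) h2

/-- **Fermat numbers behave like primes for sparse integers.**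
(1) Euclid's lemma for products `a_1 ⋯ a_r = q F_m` of integers with few non-zero digits, or few
windows of digits, with an explicit bound.
(2) The case of two factors and digits `± 1`: if `a b = q F_m` and `a`, `b`, `q` are sums of `k₁`,
`k₂`, `l` terms `± 2 ^ i` with `k₁ + k₂ + l ≤ m - 2 log_2 m`, then `F_m` divides `a` or `b`.
(3) Non-trivial factors `a`, `b` of `F_m = a b` which are sums of `k₁` and `k₂` terms `± 2 ^ i`
satisfy `k₁ + k₂ > m - 2 log_2 m - 1`. -/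
theorem result :
    (∀ m r l : ℕ, 2 ≤ m → 2 ≤ r → ∀ (k : Fin r → ℕ) (c : ∀ t, Fin (k t) → ℤ)
      (α : ∀ t, Fin (k t) → ℕ) (d : Fin l → ℤ) (β : Fin l → ℕ),
      ∏ t, ∑ i, c t i * 2 ^ α t i = (∑ j, d j * 2 ^ β j) * (Nat.fermatNumber m : ℤ) →
      ((∑ t, k t + l + 1 : ℕ) : ℝ) * Real.sqrt (2 * r) ^ (∑ t, k t + l) *
        Nat.log 2 (∏ t, ∑ i, (c t i).natAbs + 2 * ∑ j, (d j).natAbs) < 2 ^ m →
      ∃ t, (Nat.fermatNumber m : ℤ) ∣ ∑ i, c t i * 2 ^ α t i) ∧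
    (∀ (m k₁ k₂ l : ℕ) (a b q : ℤ), 2 ≤ m → Sparse k₁ a → Sparse k₂ b → Sparse l q →
      2 ^ (k₁ + k₂ + l) * m ^ 2 ≤ 2 ^ m → a * b = q * (Nat.fermatNumber m : ℤ) →
      (Nat.fermatNumber m : ℤ) ∣ a ∨ (Nat.fermatNumber m : ℤ) ∣ b) ∧
    (∀ m k₁ k₂ a b : ℕ, 2 ≤ m → Sparse k₁ a → Sparse k₂ b → 1 < a → 1 < b →
      a * b = Nat.fermatNumber m → 2 ^ m < 2 ^ (k₁ + k₂ + 1) * m ^ 2) :=
  ⟨fun m r l hm hr k c α d β h hK => part1 m r l hm hr k c α d β h hK,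
    fun m k₁ k₂ l a b q hm ha hb hq hK h => part2 m k₁ k₂ l hm a b q ha hb hq hK h,
    fun m k₁ k₂ a b hm ha hb ha1 hb1 h => part3 m k₁ k₂ a b hm ha hb ha1 hb1 h⟩

end Pool.Agent.Results.MP_37e5fa_nt.SparseEuclid
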